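import Pool.Agent.BHM85.Conv

/-!
# Strong 1-Lipschitz maps: maximum and minimum in the increasing convex order (MP_3ac2b4_co)

Let `G` be a connected bipartite graph on `n + 1` vertices with root `v₀`.  A uniformly random map `f : V → ℤ` with
`f v₀ = 0` and `|f u - f v| = 1` on the edges is compared with the simple random walk with `n` steps (the path with an
end as root): for all nondecreasing convex functions `φ`, `ψ` the mean of `φ (max f) + ψ (- min f)` for `G` is at most the
one for the path.  For `φ = ψ = id` this is the inequality between the mean ranges (Q1).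

Proof.  `BHM85.diamond`: the mean of `max (max f) z` is at most the `n`-th iterate at `z` of the reflected walk operator
`K φ m = (φ (m + 1) + φ (m - 1)) / 2` on the identity (vertices are absorbed one at a time by the FKG inequality).  For
the walk there is equality.  A nondecreasing convex function on `{0, ..., N + 1}` is a combination with nonnegative
coefficients of constants and of the functions `m ↦ max z m` (`BHM85.expand`).  Minima are maxima of `- f`.
-/

set_option autoImplicit false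

namespace Pool.Agent.Results.MP_3ac2b4_co.ConvexOrder

open Finset Pool.Agent.BHM Pool.Agent.BHM85

/-- The maps `f : V → ℤ` with `f v₀ = 0` and `|f u - f v| = 1` for every edge `uv` of `G`. -/
def Maps {V : Type} (G : SimpleGraph V) (v₀ : V) : Set (V → ℤ) :=
  {f | f v₀ = 0 ∧ ∀ u v, G.Adj u v → |f u - f v| = 1}

/-- The mean of `Φ` over the maps in `Maps G v₀` (their number is finite and positive in the theorem). -/
noncomputable def mean {V : Type} (G : SimpleGraph V) (v₀ : V) (Φ : (V → ℤ) → ℝ) : ℝ :=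
  (∑ᶠ (f : V → ℤ) (_ : f ∈ Maps G v₀), Φ f) / ((Maps G v₀).ncard : ℝ)

/-- The maximum of `f`. -/
def top {V : Type} [Fintype V] [Nonempty V] (f : V → ℤ) : ℤ :=
  Finset.univ.sup' Finset.univ_nonempty f

/-- The minimum of `f`. -/
def bottom {V : Type} [Fintype V] [Nonempty V] (f : V → ℤ) : ℤ :=
  Finset.univ.inf' Finset.univ_nonempty f

theorem mean_eq {V : Type} [Fintype V] [DecidableEq V] {G : SimpleGraph V} (hG : G.Connected)
    (v₀ : V) (Φ : (V → ℤ) → ℝ) :
    mean G v₀ Φ = (∑ f ∈ homs G hG v₀, Φ f) / ((homs G hG v₀).card : ℝ) := by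
  have hfin : (Maps G v₀).Finite := homSet_finite hG v₀
  unfold mean homs
  rw [finsum_mem_eq_finite_toFinset_sum _ hfin, Set.ncard_eq_toFinset_card _ hfin]
  rfl

theorem mx_zero {V : Type} [Fintype V] [DecidableEq V] [Nonempty V] (f : V → ℤ) :
    mx univ (fun _ => 0) f = top f := by
  unfold top
  rw [mx, dif_pos Finset.univ_nonempty]
  simp

theorem bottom_eq {V : Type} [Fintype V] [Nonempty V] (f : V → ℤ) :
    bottom f = - top (fun v => - f v) := by
  unfold top bottom
  apply le_antisymm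
  · obtain ⟨v, _, hv⟩ := Finset.exists_mem_eq_sup' (Finset.univ_nonempty (α := V))
      (fun v => - f v)
    rw [hv, neg_neg]
    exact Finset.inf'_le _ (Finset.mem_univ v)
  · obtain ⟨v, _, hv⟩ := Finset.exists_mem_eq_inf' (Finset.univ_nonempty (α := V)) f
    rw [hv]
    have : - f v ≤ Finset.univ.sup' Finset.univ_nonempty (fun v => - f v) :=
      Finset.le_sup' (fun v => - f v) (Finset.mem_univ v)
    omega

theorem top_nonneg {V : Type} [Fintype V] [Nonempty V] {f : V → ℤ} {v₀ : V} (h : f v₀ = 0) :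
    0 ≤ top f := by
  rw [← h]
  exact Finset.le_sup' f (Finset.mem_univ v₀)

theorem top_eq_M {n : ℕ} {f : Fin (n + 1) → ℤ} (h : f 0 = 0) : top f = (M f : ℤ) := by
  unfold top M
  apply le_antisymm
  · apply Finset.sup'_le
    intro i hi
    have h1 : (f i).toNat ≤ Finset.univ.sup (fun i => (f i).toNat) :=
      Finset.le_sup (f := fun i => (f i).toNat) hi
    omega
  · obtain ⟨i, hi, h1⟩ := Finset.exists_mem_eq_sup (Finset.univ : Finset (Fin (n + 1)))
      Finset.univ_nonempty (fun i => (f i).toNat)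
    rw [h1]
    have h2 : f i ≤ Finset.univ.sup' Finset.univ_nonempty f := Finset.le_sup' f hi
    have h3 : f 0 ≤ Finset.univ.sup' Finset.univ_nonempty f :=
      Finset.le_sup' f (Finset.mem_univ 0)
    change ((f i).toNat : ℤ) ≤ _
    omega

theorem top_le {V : Type} [Fintype V] [DecidableEq V] [Nonempty V] {G : SimpleGraph V}
    {hG : G.Connected} {v₀ : V} {f : V → ℤ} (hf : f ∈ homs G hG v₀) :
    top f ≤ (Fintype.card V : ℤ) := by
  rw [mem_homs] at hf
  unfold top
  apply Finset.sup'_le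
  intro v _
  obtain ⟨p, hp⟩ := (hG v v₀).exists_walk_length_eq_dist
  have h1 := abs_sub_le_length (f := f) hf.2 p
  rw [hf.1, sub_zero] at h1
  have h2 : p.length ≤ Fintype.card V := by
    rw [hp]
    obtain ⟨q, hq⟩ := (hG v v₀).exists_isPath
    exact (SimpleGraph.dist_le q).trans (hq.length_lt.le)
  have h3 : |f v| ≤ (Fintype.card V : ℤ) := h1.trans (by exact_mod_cast h2)
  exact (abs_le.mp h3).2

/-- The mean of `max z (max f)`. -/
theorem sum_max_top {V : Type} [Fintype V] [DecidableEq V] [Nonempty V] {G : SimpleGraph V}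
    (hG : G.Connected) (hb : G.Colorable 2) (v₀ : V) {n : ℕ} (hn : Fintype.card V = n + 1) (z : ℕ) :
    (∑ f ∈ homs G hG v₀, ((max z (top f).toNat : ℕ) : ℝ)) / ((homs G hG v₀).card : ℝ) ≤
      (∑ f ∈ walks n, ((max z (M f) : ℕ) : ℝ)) / 2 ^ n := by
  have hpos : (0 : ℝ) < ((homs G hG v₀).card : ℝ) := by
    exact_mod_cast Finset.card_pos.mpr (homs_nonempty hG hb v₀)
  have h1 := sum_max_le hG hb v₀ hn z
  rw [← Kit_eq_walks, mul_comm ((2 : ℝ) ^ n), mul_div_assoc, div_self (by positivity), mul_one,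
    div_le_iff₀ hpos, mul_comm]
  refine (le_of_eq ?_).trans h1
  apply Finset.sum_congr rfl
  intro f hf
  rw [mem_homs] at hf
  have h2 := mx_update (fun _ => 0) f (Finset.mem_univ v₀) z (Nat.zero_le z)
  rw [mx_zero, hf.1, zero_add] at h2
  rw [h2]
  have h3 := top_nonneg hf.1
  have h4 : max (top f) (z : ℤ) = ((max z (top f).toNat : ℕ) : ℤ) := by
    omega
  rw [h4]
  norm_cast

theorem sum_top {V : Type} [Fintype V] [DecidableEq V] [Nonempty V] {G : SimpleGraph V}
    (hG : G.Connected) (hb : G.Colorable 2) (v₀ : V) {n : ℕ} (hn : Fintype.card V = n + 1) :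
    (∑ f ∈ homs G hG v₀, (((top f).toNat : ℕ) : ℝ)) / ((homs G hG v₀).card : ℝ) ≤
      (∑ f ∈ walks n, ((M f : ℕ) : ℝ)) / 2 ^ n := by
  have := sum_max_top hG hb v₀ hn 0
  simpa only [Nat.zero_max] using this

/-- The maximum. -/
theorem convex_le {V : Type} [Fintype V] [DecidableEq V] [Nonempty V] {G : SimpleGraph V}
    (hG : G.Connected) (hb : G.Colorable 2) (v₀ : V) {n : ℕ} (hn : Fintype.card V = n + 1)
    (φ : ℝ → ℝ) (hmono : Monotone φ) (hconv : ConvexOn ℝ Set.univ φ) :
    mean G v₀ (fun f => φ (top f : ℝ)) ≤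
      mean (SimpleGraph.pathGraph (n + 1)) 0 (fun f => φ (top f : ℝ)) := by
  have hpos : (0 : ℝ) < ((homs G hG v₀).card : ℝ) := by
    exact_mod_cast Finset.card_pos.mpr (homs_nonempty hG hb v₀)
  have hw : ((homs (SimpleGraph.pathGraph (n + 1))
      (SimpleGraph.pathGraph_connected n) 0).card : ℝ) = 2 ^ n := card_walks n
  rw [mean_eq hG, mean_eq (SimpleGraph.pathGraph_connected n), hw]
  set ψ : ℕ → ℝ := fun m => φ (m : ℝ) with hψ
  have e1 : ∑ f ∈ homs G hG v₀, φ (top f : ℝ) = ∑ f ∈ homs G hG v₀, ψ (top f).toNat := by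
    apply Finset.sum_congr rfl
    intro f hf
    rw [mem_homs] at hf
    have h2 : (((top f).toNat : ℕ) : ℤ) = top f := Int.toNat_of_nonneg (top_nonneg hf.1)
    have h3 : ((((top f).toNat : ℕ) : ℤ) : ℝ) = (top f : ℝ) := by rw [h2]
    rw [hψ, ← h3]
    norm_cast
  have e2 : ∑ f ∈ homs (SimpleGraph.pathGraph (n + 1))
      (SimpleGraph.pathGraph_connected n) 0, φ (top f : ℝ) = ∑ f ∈ walks n, ψ (M f) := by
    apply Finset.sum_congr rfl
    intro f hf
    rw [mem_homs] at hf
    rw [top_eq_M hf.1, hψ]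
    norm_cast
  rw [e1, e2]
  have hc : ∀ z : ℕ, 0 ≤ ψ (z + 2) - 2 * ψ (z + 1) + ψ z := by
    intro z
    have h := hconv.2 (Set.mem_univ ((z : ℝ) + 2)) (Set.mem_univ (z : ℝ))
      (show (0 : ℝ) ≤ 1 / 2 by norm_num) (show (0 : ℝ) ≤ 1 / 2 by norm_num) (by norm_num)
    simp only [smul_eq_mul] at h
    have h1 : (1 / 2 : ℝ) * ((z : ℝ) + 2) + 1 / 2 * (z : ℝ) = (z : ℝ) + 1 := by ring
    rw [h1] at h
    simp only [hψ]
    push_cast
    linarith
  have hd : 0 ≤ ψ 1 - ψ 0 := by
    have := hmono (show ((0 : ℕ) : ℝ) ≤ ((1 : ℕ) : ℝ) by norm_num)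
    simp only [hψ]
    linarith
  -- the mean of psi of a variable with values at most `n + 1`
  have hexp : ∀ {ι : Type} (s : Finset ι) (t : ι → ℕ), (∀ f ∈ s, t f ≤ n + 1) →
      0 < (s.card : ℝ) →
      (∑ f ∈ s, ψ (t f)) / (s.card : ℝ) = (ψ 1 - ψ 0) * ((∑ f ∈ s, (t f : ℝ)) / (s.card : ℝ)) +
        ψ 0 + ∑ z ∈ range n, (ψ (z + 2) - 2 * ψ (z + 1) + ψ z) *
          ((∑ f ∈ s, ((max (z + 1) (t f) : ℕ) : ℝ)) / (s.card : ℝ) - (z + 1)) := by
    intro ι s t ht hs
    have h1 : ∑ f ∈ s, ψ (t f) = (ψ 1 - ψ 0) * (∑ f ∈ s, (t f : ℝ)) + (s.card : ℝ) * ψ 0 +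
        ∑ z ∈ range n, (ψ (z + 2) - 2 * ψ (z + 1) + ψ z) *
          ((∑ f ∈ s, ((max (z + 1) (t f) : ℕ) : ℝ)) - (s.card : ℝ) * (z + 1)) := by
      rw [Finset.sum_congr rfl (fun f hf => expand ψ n (t f) (ht f hf)),
        Finset.sum_add_distrib, Finset.sum_add_distrib, ← Finset.mul_sum, Finset.sum_const,
        nsmul_eq_mul, Finset.sum_comm]
      congr 1
      apply Finset.sum_congr rfl
      intro z _
      rw [← Finset.mul_sum, Finset.sum_sub_distrib, Finset.sum_const, nsmul_eq_mul]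
    rw [h1, add_div, add_div, Finset.sum_div]
    have h2 : (s.card : ℝ) ≠ 0 := hs.ne'
    congr 1
    · congr 1
      · rw [mul_div_assoc]
      · field_simp
    · apply Finset.sum_congr rfl
      intro z _
      field_simp
  have h1 := hexp (homs G hG v₀) (fun f => (top f).toNat) (by
    intro f hf
    have := top_le hf
    rw [hn] at this
    change (top f).toNat ≤ n + 1
    omega) hpos
  have hwpos : (0 : ℝ) < ((walks n).card : ℝ) := by
    rw [card_walks]
    positivity
  have h2 := hexp (walks n) M (by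
    intro f hf
    have h3 := top_le (hG := SimpleGraph.pathGraph_connected n) (v₀ := 0) hf
    have h4 : f 0 = 0 := (mem_homs.1 hf).1
    rw [top_eq_M h4, Fintype.card_fin] at h3
    omega) hwpos
  rw [card_walks] at h2
  rw [h1, h2]
  have h3 := sum_top hG hb v₀ hn
  have h4 := mul_le_mul_of_nonneg_left h3 hd
  have h5 : ∑ z ∈ range n, (ψ (z + 2) - 2 * ψ (z + 1) + ψ z) *
        ((∑ f ∈ homs G hG v₀, ((max (z + 1) (top f).toNat : ℕ) : ℝ)) /
          ((homs G hG v₀).card : ℝ) - (z + 1)) ≤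
      ∑ z ∈ range n, (ψ (z + 2) - 2 * ψ (z + 1) + ψ z) *
        ((∑ f ∈ walks n, ((max (z + 1) (M f) : ℕ) : ℝ)) / 2 ^ n - (z + 1)) := by
    apply Finset.sum_le_sum
    intro z _
    apply mul_le_mul_of_nonneg_left _ (hc z)
    have := sum_max_top hG hb v₀ hn (z + 1)
    linarith
  linarith

/-- The mean of a function of `max f` and `- min f`. -/
theorem mean_split {V : Type} [Fintype V] [DecidableEq V] [Nonempty V] {G : SimpleGraph V}
    (hG : G.Connected) (v₀ : V) (φ ψ : ℝ → ℝ) :
    mean G v₀ (fun f => φ (top f) + ψ (- bottom f)) =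
      mean G v₀ (fun f => φ (top f)) + mean G v₀ (fun f => ψ (top f)) := by
  rw [mean_eq hG, mean_eq hG, mean_eq hG, Finset.sum_add_distrib, add_div,
    ← sum_neg hG v₀ (fun f => ψ (top f))]
  congr 2
  apply Finset.sum_congr rfl
  intro f _
  rw [bottom_eq]
  push_cast
  rw [neg_neg]

/-- Let `G` be a connected bipartite graph on `n + 1` vertices, `v₀` a vertex and `φ`, `ψ` nondecreasing convex
functions.  Then there are finitely many maps (at least one), and the mean of `φ (max f) + ψ (- min f)` over them is at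
most the same mean for the path on `n + 1` vertices with an end as root.  (`φ = ψ = id`: the mean ranges.) -/
theorem result {V : Type} [Fintype V] [Nonempty V] (n : ℕ) (hn : Fintype.card V = n + 1)
    (G : SimpleGraph V) (hG : G.Connected) (hb : G.Colorable 2) (v₀ : V)
    (φ ψ : ℝ → ℝ) (hφ : Monotone φ) (hφc : ConvexOn ℝ Set.univ φ)
    (hψ : Monotone ψ) (hψc : ConvexOn ℝ Set.univ ψ) :
    (Maps G v₀).Finite ∧ (Maps G v₀).Nonempty ∧
      mean G v₀ (fun f => φ (top f) + ψ (- bottom f)) ≤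
        mean (SimpleGraph.pathGraph (n + 1)) 0 (fun f => φ (top f) + ψ (- bottom f)) := by
  classical
  refine ⟨homSet_finite hG v₀, ?_, ?_⟩
  · obtain ⟨f, hf⟩ := homs_nonempty hG hb v₀
    rw [mem_homs] at hf
    exact ⟨f, hf⟩
  · rw [mean_split hG, mean_split (SimpleGraph.pathGraph_connected n)]
    exact add_le_add (convex_le hG hb v₀ hn φ hφ hφc) (convex_le hG hb v₀ hn ψ hψ hψc)

end Pool.Agent.Results.MP_3ac2b4_co.ConvexOrder
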